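import Pool.Agent.helper76.UF.Spec

/-!
# uf:CO1
-/

set_option autoImplicit false

namespace Pool.Agent.UF

open Finset Polynomial NumberField

/-- the exponent reduced modulo `n` -/
def CO1_nt (n : ℕ) (k : ℤ) : ℕ := (k % (n : ℤ)).toNat

/-- integral powers of a unit -/
def CO1_w {R : Type} [CommRing R] (ux : Rˣ) (k : ℤ) : R := ((ux ^ k : Rˣ) : R)

section w

variable {R : Type} [CommRing R] (ux : Rˣ)

theorem CO1_add (k l : ℤ) : CO1_w ux (k + l) = CO1_w ux k * CO1_w ux l := by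
  unfold CO1_w
  rw [zpow_add, Units.val_mul]

theorem CO1_nat (k : ℕ) : CO1_w ux (k : ℤ) = (ux : R) ^ k := by
  unfold CO1_w
  rw [zpow_natCast, Units.val_pow_eq_pow_val]

theorem CO1_red (n : ℕ) (hn : 0 < n) (hu : ux ^ n = 1) (q : ℕ) (k : ℤ) :
    (ux : R) ^ (q * CO1_nt n k) = CO1_w ux (q * k) := by
  rw [← CO1_nat]
  unfold CO1_w
  congr 1
  have hn' : (0 : ℤ) < n := by exact_mod_cast hn
  have h1 : ((CO1_nt n k : ℕ) : ℤ) = k % n := by
    unfold CO1_nt
    exact Int.toNat_of_nonneg (Int.emod_nonneg _ hn'.ne')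
  have h2 : (q : ℤ) * k = ((q * CO1_nt n k : ℕ) : ℤ) + n * (q * (k / n)) := by
    push_cast
    rw [h1]
    have := Int.emod_add_mul_ediv k n
    linear_combination (-(q : ℤ)) * this
  rw [h2, zpow_add, zpow_mul ux (n : ℤ), zpow_natCast ux n, hu, one_zpow, mul_one]

theorem CO1_fpos (n : ℕ) (hn : 0 < n) (hu : ux ^ n = 1) (a : R) (q : ℕ) (rt jt tt : ℤ) (h : tt = rt + q * jt) (hr : 0 ≤ rt) :
    a - (ux : R) ^ (q * CO1_nt n jt) * (ux : R) ^ rt.natAbs = a - CO1_w ux tt ∧
    a * (ux : R) ^ rt.natAbs - (ux : R) ^ (q * CO1_nt n (-jt)) = (ux : R) ^ rt.natAbs * (a - CO1_w ux (-tt)) := by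
  have e1 : ((rt.natAbs : ℕ) : ℤ) = rt := Int.natAbs_of_nonneg hr
  rw [CO1_red ux n hn hu, CO1_red ux n hn hu, ← CO1_nat, e1, ← CO1_add]
  constructor
  · rw [h]
    congr 2
    ring
  · rw [mul_sub, ← CO1_add, mul_comm a]
    congr 2
    rw [h]
    ring

theorem CO1_fneg (n : ℕ) (hn : 0 < n) (hu : ux ^ n = 1) (a : R) (q : ℕ) (rt jt tt : ℤ) (h : tt = rt + q * jt) (hr : rt ≤ 0) :
    a - (ux : R) ^ (q * CO1_nt n (-jt)) * (ux : R) ^ rt.natAbs = a - CO1_w ux (-tt) ∧
    a * (ux : R) ^ rt.natAbs - (ux : R) ^ (q * CO1_nt n jt) = (ux : R) ^ rt.natAbs * (a - CO1_w ux tt) := by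
  have h2 := CO1_fpos ux n hn hu a q (-rt) (-jt) (-tt) (by rw [h]; ring) (by omega)
  rw [Int.natAbs_neg, neg_neg, neg_neg] at h2
  exact h2

end w

/-- the product of the factors -/
theorem CO1_prod {R : Type} [CommRing R] (x : R) (s : Multiset ℕ) (F f : ℕ → R) (e : ℕ → ℕ)
    (h : ∀ t ∈ s, F t = x ^ e t * f t) : (s.map F).prod = x ^ (s.map e).sum * (s.map f).prod := by
  induction s using Multiset.induction_on with
  | empty => simp
  | cons t s ih =>
    rw [Multiset.map_cons, Multiset.prod_cons, Multiset.map_cons, Multiset.sum_cons, Multiset.map_cons, Multiset.prod_cons,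
      ih fun u hu => h u (Multiset.mem_cons_of_mem hu), h t (Multiset.mem_cons_self t s), pow_add]
    ring

/-- the sum of the exponents -/
theorem CO1_sum (s : Multiset ℕ) (e : ℕ → ℕ) (r q : ℕ) (h : ∀ t ∈ s, 16 * r * e t ≤ q) :
    16 * r * (s.map e).sum ≤ Multiset.card s * q := by
  induction s using Multiset.induction_on with
  | empty => simp
  | cons t s ih =>
    rw [Multiset.map_cons, Multiset.sum_cons, Multiset.card_cons, Nat.mul_add, Nat.add_mul, Nat.one_mul, Nat.add_comm]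
    exact Nat.add_le_add (ih fun u hu => h u (Multiset.mem_cons_of_mem hu)) (h t (Multiset.mem_cons_self t s))

theorem CO1 (h1 : SUP_stmt) (h2 : PIG_stmt) (h3 : SPL_stmt) (h4 : POL_stmt) : CO1_stmt := by
  classical
  intro m a r R _ _ x b hCyc hBar hr hlt s hs hodd ρ hρ
  have hN : 1 ≤ 2 ^ m := Nat.one_le_two_pow
  obtain ⟨c, hc, hcard⟩ := h1 (2 ^ m) R x b hN hCyc hBar a s ρ hρ
  set S := (range (2 ^ m)).filter (fun i => c i ≠ 0) with hS
  have hρS : ρ = ∑ i ∈ S, (c i : R) * x ^ i := by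
    rw [hc, hS]
    symm
    refine sum_filter_of_ne fun i _ h => ?_
    intro h0
    exact h (by rw [h0, Int.cast_zero, zero_mul])
  -- the list of the exponents
  set l : List ℕ := S.toList ++ s.toList with hl
  have hlen : l.length ≤ (a + 1) ^ (2 * r) + r := by
    rw [hl, List.length_append, Finset.length_toList, Multiset.length_toList]
    refine Nat.add_le_add (hcard.trans ?_) hs
    exact Nat.pow_le_pow_right (by omega) (by omega)
  have hmemS : ∀ i ∈ S, i ∈ l := fun i hi => List.mem_append_left _ (Finset.mem_toList.2 hi)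
  have hmems : ∀ t ∈ s, t ∈ l := fun t ht => List.mem_append_right _ (Multiset.mem_toList.2 ht)
  obtain ⟨t₀, ht1, ht2, ht3⟩ := h2 l.length (32 * r) (2 ^ (m + 1)) (fun i => ((l.get i : ℕ) : ℤ)) (by omega) Nat.one_le_two_pow
  have ht4 : t₀ < 2 ^ m := lt_of_le_of_lt (ht2.trans (Nat.pow_le_pow_right (by omega) hlen)) hlt
  obtain ⟨g, t', hg1, hgm, ht'odd, ht'eq, hspl⟩ := h3 m t₀ ht1 ht4
  set q : ℕ := 2 ^ (m + 1 - g) with hq
  have hq0 : 0 < q := by positivity
  have hqg : 2 ^ g * q = 2 ^ (m + 1) := by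
    rw [hq, ← pow_add]
    congr 1
    omega
  have hchoice : ∀ v : ℕ, ∃ p : ℤ × ℤ, v ∈ l → 16 * (r : ℤ) * |p.1| ≤ q ∧ (t' : ℤ) * v = p.1 + q * p.2 := by
    intro v
    by_cases hv : v ∈ l
    · obtain ⟨i, hi⟩ := List.mem_iff_get.1 hv
      obtain ⟨b', hb1, hb2⟩ := ht3 i
      simp only [hi] at hb1
      obtain ⟨r', j', hr1, hr2⟩ := hspl (v : ℤ) b' (by exact_mod_cast hb1)
      refine ⟨(r', j'), fun _ => ⟨?_, ?_⟩⟩
      · have e1 : |2 * b'| = 2 ^ g * |r'| := by
          rw [hr1, abs_mul, abs_of_nonneg (by positivity)]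
        rw [abs_mul, abs_two] at e1
        have e2 : (2 : ℤ) ^ g * (16 * (r : ℤ) * |r'|) ≤ 2 ^ g * q := by
          have e3 : ((2 : ℤ) ^ g * q) = 2 ^ (m + 1) := by exact_mod_cast hqg
          rw [e3]
          have e4 : |b'| * ((32 * r : ℕ) : ℤ) ≤ ((2 ^ (m + 1) : ℕ) : ℤ) := hb2
          push_cast at e4
          calc (2 : ℤ) ^ g * (16 * (r : ℤ) * |r'|) = 16 * r * (2 ^ g * |r'|) := by ring
            _ = 16 * r * (2 * |b'|) := by rw [e1]
            _ = |b'| * (32 * r) := by ring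
            _ ≤ 2 ^ (m + 1) := e4
        exact le_of_mul_le_mul_left e2 (by positivity)
      · rw [hr2, hq]
        push_cast
        ring
    · exact ⟨(0, 0), fun h => absurd h hv⟩
  choose p hp using hchoice
  set L : ℕ := q / 16 with hL
  have h4L : 4 * L < q := by omega
  have hrS : ∀ i ∈ l, |(p i).1| ≤ L := by
    intro i hi
    have h5 := (hp i hi).1
    have h6 : 16 * |(p i).1| ≤ q := by
      have h7 : 0 ≤ |(p i).1| := abs_nonneg _
      have h8 : (1 : ℤ) ≤ r := by exact_mod_cast hr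
      nlinarith
    rw [hL]
    omega
  have hes : (s.map fun t => (p t).1.natAbs).sum ≤ L := by
    have h5 := CO1_sum s (fun t => (p t).1.natAbs) r q fun t ht => by
      have h6 := (hp t (hmems t ht)).1
      zify
      exact h6
    have h6 : 16 * r * (s.map fun t => (p t).1.natAbs).sum ≤ r * q := h5.trans (Nat.mul_le_mul_right q hs)
    have h7 : r * (16 * (s.map fun t => (p t).1.natAbs).sum) ≤ r * q := by
      calc r * (16 * (s.map fun t => (p t).1.natAbs).sum) = 16 * r * (s.map fun t => (p t).1.natAbs).sum := by ring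
        _ ≤ r * q := h6
    have h8 := Nat.le_of_mul_le_mul_left h7 (by omega)
    rw [hL]
    omega
  obtain ⟨σ, hσ⟩ := hCyc.2.2 t' ht'odd
  -- the unit
  set ux : Rˣ := ⟨x, b x, by rw [mul_comm]; exact hBar.1, hBar.1⟩ with hux
  have huxv : (ux : R) = x := rfl
  have hn0 : 0 < 2 ^ (m + 1) := by positivity
  have huxn : ux ^ (2 ^ (m + 1)) = 1 := by
    apply Units.ext
    rw [Units.val_pow_eq_pow_val, huxv, Units.val_one, pow_succ, pow_mul, hCyc.1.1]
    norm_num
  have hσx : ∀ i : ℕ, σ (x ^ i) = CO1_w ux ((t' : ℤ) * i) := by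
    intro i
    rw [map_pow, hσ, ← pow_mul, ← huxv, ← CO1_nat]
    push_cast
    rfl
  have hσb : ∀ i : ℕ, σ (b x ^ i) = CO1_w ux (-((t' : ℤ) * i)) := by
    intro i
    have h5 : σ (b x) = (((ux ^ t')⁻¹ : Rˣ) : R) := by
      rw [← Units.mul_eq_one_iff_eq_inv, Units.val_pow_eq_pow_val, huxv, ← hσ, ← map_mul, hBar.1, map_one]
    rw [map_pow, h5, ← Units.val_pow_eq_pow_val]
    unfold CO1_w
    congr 1
    rw [zpow_neg, zpow_mul, zpow_natCast, zpow_natCast, inv_pow]
  set A : ℕ → ℕ := fun i => CO1_nt (2 ^ (m + 1)) (p i).2 with hA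
  set A' : ℕ → ℕ := fun i => CO1_nt (2 ^ (m + 1)) (-(p i).2) with hA'
  set B : ℕ → ℕ := fun i => ((p i).1 + L).toNat with hB
  set B' : ℕ → ℕ := fun i => ((L : ℤ) - (p i).1).toNat with hB'
  have hBL : ∀ i ∈ S, B i ≤ 2 * L ∧ B' i ≤ 2 * L := by
    intro i hi
    have h5 := abs_le.1 (hrS i (hmemS i hi))
    simp only [hB, hB']
    omega
  have hE1 : ∀ i ∈ S, x ^ (q * A i) * x ^ (B i) = x ^ L * σ (x ^ i) := by
    intro i hi
    have h5 := abs_le.1 (hrS i (hmemS i hi))
    have h6 := (hp i (hmemS i hi)).2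
    have h7 : ((B i : ℕ) : ℤ) = (p i).1 + L := Int.toNat_of_nonneg (by omega)
    rw [hσx, ← huxv, CO1_red ux _ hn0 huxn, ← CO1_nat ux (B i), ← CO1_nat ux L, ← CO1_add, ← CO1_add, h7, h6]
    congr 1
    ring
  have hE2 : ∀ i ∈ S, x ^ (q * A' i) * x ^ (B' i) = x ^ L * σ (b x ^ i) := by
    intro i hi
    have h5 := abs_le.1 (hrS i (hmemS i hi))
    have h6 := (hp i (hmemS i hi)).2
    have h7 : ((B' i : ℕ) : ℤ) = (L : ℤ) - (p i).1 := Int.toNat_of_nonneg (by omega)
    rw [hσb, h6]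
    show (ux : R) ^ (q * A' i) * (ux : R) ^ (B' i) = (ux : R) ^ L * CO1_w ux (-((p i).1 + q * (p i).2))
    rw [CO1_red ux _ hn0 huxn, ← CO1_nat ux (B' i), ← CO1_nat ux L, ← CO1_add, ← CO1_add, h7]
    congr 1
    ring
  have hP : ∑ i ∈ S, (c i : R) * x ^ (q * A i) * x ^ (B i) = x ^ L * σ ρ := by
    rw [hρS, map_sum, mul_sum]
    refine sum_congr rfl fun i hi => ?_
    rw [map_mul, map_intCast, mul_assoc, hE1 i hi]
    ring
  have hQ : ∑ i ∈ S, (c i : R) * x ^ (q * A' i) * x ^ (B' i) = x ^ L * σ (b ρ) := by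
    rw [hρS, map_sum, map_sum, mul_sum]
    refine sum_congr rfl fun i hi => ?_
    have e0 : b (x ^ i) = b x ^ i := map_pow b x i
    rw [map_mul, map_mul, map_intCast, map_intCast, mul_assoc, hE2 i hi, e0]
    ring
  -- the factors
  set e : ℕ → ℕ := fun t => (p t).1.natAbs with he
  set g1 : ℕ → ℕ := fun t => if 0 ≤ (p t).1 then A t else A' t with hg1d
  set g2 : ℕ → ℕ := fun t => if 0 ≤ (p t).1 then A' t else A t with hg2d
  have hσf : ∀ t, σ (ff a x t) = (a : R) - CO1_w ux ((t' : ℤ) * t) := by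
    intro t
    unfold ff
    rw [map_sub, map_natCast, hσx]
  have hσbf : ∀ t, σ (b (ff a x t)) = (a : R) - CO1_w ux (-((t' : ℤ) * t)) := by
    intro t
    unfold ff
    rw [map_sub, map_sub, map_natCast, map_natCast, map_pow, hσb]
  have hF : ∀ t ∈ s, ((a : R) - x ^ (q * g1 t) * x ^ e t = σ (ff a x t) ∧
        (a : R) * x ^ e t - x ^ (q * g2 t) = x ^ e t * σ (b (ff a x t))) ∨
      ((a : R) - x ^ (q * g1 t) * x ^ e t = σ (b (ff a x t)) ∧
        (a : R) * x ^ e t - x ^ (q * g2 t) = x ^ e t * σ (ff a x t)) := by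
    intro t ht
    have h6 := (hp t (hmems t ht)).2
    rw [hσf, hσbf]
    by_cases h0 : 0 ≤ (p t).1
    · left
      simp only [hg1d, hg2d, if_pos h0]
      exact CO1_fpos ux _ hn0 huxn (a : R) q _ _ _ h6 h0
    · right
      simp only [hg1d, hg2d, if_neg h0]
      exact CO1_fneg ux _ hn0 huxn (a : R) q _ _ _ h6 (by omega)
  set T : Multiset (ℕ × ℕ × ℕ) := s.map fun t => (g1 t, g2 t, e t) with hT
  have hTsum : (T.map fun p => p.2.2).sum = (s.map e).sum := by
    rw [hT, Multiset.map_map]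
    rfl
  have hk : (2 * L - (s.map e).sum) + 2 * (T.map fun p => p.2.2).sum ≤ 4 * L := by
    rw [hTsum]
    have : (s.map e).sum ≤ L := hes
    omega
  have hTprod : (T.map (fun p => ((a : R) - x ^ (q * p.1) * x ^ p.2.2) * ((a : R) * x ^ p.2.2 - x ^ (q * p.2.1)))).prod =
      x ^ (s.map e).sum * (s.map fun t => σ (ff a x t) * σ (b (ff a x t))).prod := by
    rw [hT, Multiset.map_map]
    refine CO1_prod x s _ _ e fun t ht => ?_
    show ((a : R) - x ^ (q * g1 t) * x ^ e t) * ((a : R) * x ^ e t - x ^ (q * g2 t)) = x ^ e t * (σ (ff a x t) * σ (b (ff a x t)))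
    rcases hF t ht with ⟨e1, e2⟩ | ⟨e1, e2⟩
    · rw [e1, e2]
      ring
    · rw [e1, e2]
      ring
  have hmapσ : (s.map fun t => σ (ff a x t) * σ (b (ff a x t))).prod =
      σ ((s.map (ff a x)).prod) * σ (b (s.map (ff a x)).prod) := by
    rw [Multiset.prod_map_mul, map_multiset_prod, map_multiset_prod, map_multiset_prod, Multiset.map_map, Multiset.map_map,
      Multiset.map_map]
    rfl
  have hpol := h4 m g a R x hg1 hgm hCyc.1 q L (2 * L - (s.map e).sum) hq h4L S c A A' B B' hBL T hk (by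
    rw [hP, hQ, hTprod, hmapσ]
    have h5 : x ^ L * σ ρ * (x ^ L * σ (b ρ)) = x ^ (2 * L) * σ (ρ * b ρ) := by
      rw [map_mul, two_mul, pow_add]
      ring
    rw [h5, hρ, map_mul, ← mul_assoc (x ^ (2 * L - (s.map e).sum)), ← pow_add]
    have : (s.map e).sum ≤ L := hes
    have h6 : 2 * L - (s.map e).sum + (s.map e).sum = 2 * L := by omega
    rw [h6])
  refine ⟨σ, L, ∑ i ∈ S, C ((c i : R) * x ^ (q * A i)) * X ^ (B i), ∑ i ∈ S, C ((c i : R) * x ^ (q * A' i)) * X ^ (B' i), ?_, ?_, ?_⟩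
  · rw [← hP, eval_finsetSum]
    refine sum_congr rfl fun i _ => ?_
    rw [eval_mul, eval_C, eval_pow, eval_X]
  · rw [← hQ, eval_finsetSum]
    refine sum_congr rfl fun i _ => ?_
    rw [eval_mul, eval_C, eval_pow, eval_X]
  · intro t ht
    set v : Rˣ := ux ^ (q * g1 t) with hv
    have hvv : (v : R) = x ^ (q * g1 t) := by
      rw [hv, Units.val_pow_eq_pow_val]
    refine ⟨e t, ((v⁻¹ : Rˣ) : R), ?_, ?_, ?_, ?_⟩
    · have h6 := (hp t (hmems t ht)).2
      have h7 := hodd t ht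
      have hqe : Even q := by
        rw [hq, Nat.even_pow]
        exact ⟨even_two, by omega⟩
      have h8 : Odd ((p t).1) := by
        have h9 : (p t).1 = (t' : ℤ) * t - q * (p t).2 := by omega
        rw [h9]
        refine Odd.sub_even (Odd.mul ?_ ?_) (Even.mul_right ?_ _)
        · exact_mod_cast ht'odd
        · exact_mod_cast h7
        · exact_mod_cast hqe
      exact Int.natAbs_odd.2 h8
    · rw [← Units.val_pow_eq_pow_val, inv_pow, hv, ← pow_mul, mul_comm, pow_mul, huxn, one_pow, inv_one, Units.val_one]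
    · rw [hpol]
      have h5 : (X : R[X]) ^ e t - C ((a : R) * ((v⁻¹ : Rˣ) : R)) ∣ C (a : R) - C (x ^ (q * g1 t)) * X ^ e t := by
        refine ⟨-C (v : R), ?_⟩
        have h6 : C ((a : R) * ((v⁻¹ : Rˣ) : R)) * C (v : R) = C (a : R) := by
          rw [← C_mul, mul_assoc, Units.inv_mul, mul_one]
        rw [← hvv]
        linear_combination (-1 : R[X]) * h6
      refine h5.trans (Dvd.dvd.mul_left ?_ _)
      refine (Dvd.intro _ rfl).trans (Multiset.dvd_prod (a := (C (a : R) - C (x ^ (q * g1 t)) * X ^ e t) *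
          (C (a : R) * X ^ e t - C (x ^ (q * g2 t)))) ?_)
      rw [hT, Multiset.map_map]
      exact Multiset.mem_map.2 ⟨t, ht, rfl⟩
    · have h6 : x ^ e t - (a : R) * ((v⁻¹ : Rˣ) : R) = ((a : R) - x ^ (q * g1 t) * x ^ e t) * ((-v⁻¹ : Rˣ) : R) := by
        rw [← hvv, Units.val_neg]
        have h7 : (v : R) * ((v⁻¹ : Rˣ) : R) = 1 := Units.mul_inv v
        linear_combination (-(x ^ e t)) * h7
      rcases hF t ht with ⟨e1, -⟩ | ⟨e1, -⟩
      · left
        rw [h6, e1]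
        exact associated_mul_unit_left _ _ (Units.isUnit _)
      · right
        rw [h6, e1]
        exact associated_mul_unit_left _ _ (Units.isUnit _)

end Pool.Agent.UF
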